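import Pool.Agent.Y69.Main
import Pool.Agent.Y69.WhDef

/-!
# Rational injectivity of `colim Wh(H) → Wh(G)` for every group

For every group `G` the canonical map `colim Wh(H) → Wh(G)`, the colimit being over the finite
subgroups `H` of `G` (and the maps given by conjugation with elements of `G`), is injective after
tensoring with the rational numbers. There is no hypothesis on `G`.

The definitions (`K1`, `Wh`, `ColimWh`, `assembly`) are in `Pool.Agent.Y69.WhDef`.
-/

set_option autoImplicit false

namespace Pool.Agent.Results.MP_e40716_gt.ColimWhitehead

/-- For every group `G`, an element of `colim Wh(H)` (colimit over the finite subgroups `H` of `G`)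
whose image in the Whitehead group `Wh(G)` has finite order has finite order. -/
theorem result (G : Type) [Group G] (x : Pool.Agent.Y69.FJ.ColimWh G) (n : ℕ) (hn : 0 < n)
    (hx : n • Pool.Agent.Y69.FJ.assembly G x = 0) : ∃ k : ℕ, 0 < k ∧ k • x = 0 :=
  Pool.Agent.Y69.Main.Wh_main (G := G) x n hn hx

end Pool.Agent.Results.MP_e40716_gt.ColimWhitehead
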