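import Pool.Agent.X265.Dan.Tri

/-!
# Automorphism groups of the surfaces `x y = P(z)`

`C` is any class of groups with the closure properties `ClosedE C` which contains all groups with an
abelian normal subgroup and cyclic quotient. All of this is known for the class of the groups that
satisfy the K-theoretic Farrell–Jones conjecture with coefficients and finite wreath products.

Let `k` be a commutative domain and `P ∈ k[t]` of degree at least `3`. `SA P` is the coordinate ring
`k[x, y, z] / (x y - P(z))` of the Danielewski surface `x y = P(z)`. `DG P` is the group of
`k`-automorphisms of `SA P` which is generated by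

* the automorphisms of the form `x ↦ a x`, `z ↦ m z + n + x F(x)` with units `a`, `m`, `n ∈ k` and
  `F ∈ k[t]` (for `a = m = 1`, `n = 0` these exist for all `F`, see `triangular` below),
* the automorphisms of the form `x ↦ a y`, `y ↦ a' x`, `z ↦ m z + n` (the exchange of `x` and `y` is one
  of them).

If `k` is the field of complex numbers then this is the whole automorphism group of the surface, by a
theorem of Makar-Limanov (not part of the Lean).

Outline of the proof. Compare the degrees of the coordinates `x` and `y` of points over `k[t]`: a
triangular automorphism with `F ≠ 0` maps a point with `deg y < deg x` to a point with `deg x < deg y` and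
increases the maximum, since `deg P ≥ 3`. Hence `DG P` is the amalgamated product of the triangular and the
linear automorphisms over their intersection; `F ↦ 0` is a retraction of the triangular
automorphisms onto the intersection (if an automorphism with data `a, m, n, F` exists then
`P(m t + n) = m ^ deg P * P(t)`, so there is one with the data `a, m, n, 0`). So the theorem on amalgamated
products over retracts (`X176.FJ.Retr`) applies. Both factors are solvable or solvable of index two, and
in `C`.
-/

set_option autoImplicit false

namespace Pool.Agent.Results.MP_e40716_gt.DanielewskiSurfaces

open Pool.Agent.Y110.FJ Pool.Agent.X265.Dan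
open scoped Polynomial

/-- Let `C` be a class of groups with the closure properties `ClosedE C` which contains all
abelian-by-cyclic groups. For every commutative domain `k` and every polynomial `P` of degree at least `3`
over `k` the group `DG P` of automorphisms of the surface `x y = P(z)` is in `C`. -/
theorem result (C : ∀ (G : Type) [Group G], Prop) (hC : ClosedE C)
    (hab : ∀ (H : Type) [Group H] (A : Subgroup H) [A.Normal], (∀ a ∈ A, ∀ b ∈ A, a * b = b * a) →
      IsCyclic (H ⧸ A) → C H)
    (k : Type) [CommRing k] [IsDomain k] (P : k[X]) (hP : 3 ≤ P.natDegree) : C ↥(DG P) :=
  c_DG hC hab hP

/-- For every `F` there is an automorphism with `x ↦ x`, `z ↦ z + x F(x)`. -/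
theorem triangular (k : Type) [CommRing k] [IsDomain k] (P : k[X]) (hP : P ≠ 0) (F : k[X]) :
    ∃ g : SA P ≃ₐ[k] SA P, g (gx P) = gx P ∧
      g (gz P) = gz P + gx P * Polynomial.aeval (gx P) F :=
  ⟨tri hP F, th_x F, th_z F⟩

end Pool.Agent.Results.MP_e40716_gt.DanielewskiSurfaces
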