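import Pool.Agent.X176.FJ.Lim
import Pool.Agent.Y110.FJ.Stm

/-!
# Unrestricted products, ultraproducts and limits of marked groups

`C` is any class of groups with the closure properties `ClosedE C`, all of which are known for the
class of the groups that satisfy the Farrell–Jones conjecture with coefficients and finite wreath
products. It is not known whether this class is closed under infinite unrestricted products. We show
that this is equivalent to the class being closed in the space of marked groups, to being closed under
ultraproducts, and to containing all groups which are residually in the class.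
-/

set_option autoImplicit false

namespace Pool.Agent.Results.MP_e40716_gt.MarkedLimits

open Pool.Agent.Y110.FJ Pool.Agent.X176.FJ

/-- `P` contains the trivial group and is closed under products of two groups -/
def FinProd (P : ∀ (G : Type) [Group G], Prop) : Prop :=
  P PUnit ∧ ∀ (G H : Type) [Group G] [Group H], P G → P H → P (G × H)

theorem result (C : ∀ (G : Type) [Group G], Prop) (hC : ClosedE C) :
    ((ProductsIn C ↔ PowersIn C) ∧ (ProductsIn C ↔ RedProductsIn C) ∧
      (ProductsIn C ↔ UltraproductsIn C) ∧ (ProductsIn C ↔ ResIn C C) ∧
      (ProductsIn C ↔ LocEmbIn C C) ∧ (ProductsIn C ↔ MLimIn C C)) ∧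
    ∀ P : ∀ (G : Type) [Group G], Prop, FinProd P →
      (ResFgIn P C ↔ ResIn P C) ∧ (ResFgIn P C ↔ LocEmbIn P C) ∧ (ResFgIn P C ↔ MLimIn P C) :=
  ⟨prod_tfae hC.base, fun _ hP => lim_tfae hC.base hP.1 hP.2⟩

end Pool.Agent.Results.MP_e40716_gt.MarkedLimits
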